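import Mathlib
import Pool.Agent.Q91.TowerCifs

/-!
# The local dimension of a dimension spectrum need not be continuous
-/

open Set Filter Topology
open scoped ENNReal

namespace Pool.Agent.Results.MP_906def_an.LocalDimension

open Q91.Cifs Q91.SimSys

/-- **Theorem.** There is a conformal iterated function system on `[0, 1]` (consisting of
similarities `x ↦ t e + r e * x`) whose dimension spectrum `D` satisfies: `D ⊆ [0, 1]` contains
`[0, 1/2]`; `dim_{1/2}(D) = 1`; the points of `D` to the right of `1/2` accumulate at `1/2`, and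
`dim_x(D) = 0` for all of them. In particular `x ↦ dim_x(D)` is not continuous at the point `1/2`
of `D`. -/
theorem result : ∃ (E : Type) (t r : E → ℝ), (∀ e, 0 < r e) ∧
    IsCIFS (Icc 0 1) (fun e x => t e + r e * x) ∧
    Icc 0 (1 / 2) ⊆ dimSpectrum (Icc 0 1) (fun e x => t e + r e * x) ∧
    localDim (dimSpectrum (Icc 0 1) (fun e x => t e + r e * x)) (1 / 2) = 1 ∧
    (∀ x ∈ dimSpectrum (Icc 0 1) (fun e x => t e + r e * x), 1 / 2 < x →
      localDim (dimSpectrum (Icc 0 1) (fun e x => t e + r e * x)) x = 0) ∧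
    (∀ ε : ℝ, 0 < ε → ∃ x ∈ dimSpectrum (Icc 0 1) (fun e x => t e + r e * x), 1 / 2 < x ∧ x < 1 / 2 + ε) ∧
    ¬ ContinuousWithinAt (localDim (dimSpectrum (Icc 0 1) (fun e x => t e + r e * x)))
      (dimSpectrum (Icc 0 1) (fun e x => t e + r e * x)) (1 / 2) := by
  have hφ : (fun (e : Q91.Tower.E) (x : ℝ) => Q91.Tower.S.t e + Q91.Tower.S.r e * x)
      = Q91.Tower.S.φ := rfl
  refine ⟨Q91.Tower.E, Q91.Tower.S.t, Q91.Tower.S.r, Q91.Tower.S.r0, ?_⟩
  rw [hφ, tower_spectrum]
  refine ⟨tower_isCIFS, ?_, localDim_half, fun x _ hx => localDim_right hx,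
    fun ε hε => Q91.Tower.exists_right hε, fun hcont => ?_⟩
  · rintro x ⟨hx0, hx1⟩
    rcases hx0.eq_or_lt with h0 | h0
    · rw [← h0]; exact zero_mem
    rcases hx1.eq_or_lt with h | h
    · rw [h]; exact Q91.Tower.half_mem
    · exact Q91.Tower.left_mem h0 h
  · have h1 : Tendsto (localDim Q91.Tower.DS) (𝓝[Q91.Tower.DS] (1 / 2)) (𝓝 1) := by
      have := hcont.tendsto
      rwa [localDim_half] at this
    have h2 : ∀ᶠ x in 𝓝[Q91.Tower.DS] (1 / 2), 0 < localDim Q91.Tower.DS x :=
      h1.eventually (lt_mem_nhds zero_lt_one)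
    rw [eventually_nhdsWithin_iff] at h2
    obtain ⟨ε, hε, h3⟩ := Metric.eventually_nhds_iff.1 h2
    obtain ⟨x, hx, hx1, hx2⟩ := Q91.Tower.exists_right hε
    have h4 := h3 (by rw [Real.dist_eq, abs_lt]; constructor <;> linarith) hx
    rw [localDim_right hx1] at h4
    exact lt_irrefl _ h4

end Pool.Agent.Results.MP_906def_an.LocalDimension
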